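import Pool.Agent.W600.DM.Stm

/-! Project DM, part EV. -/

set_option autoImplicit false

namespace Pool.Agent.W411.DM

open Pool.Agent.W600.DM
open Filter Topology

lemma summable_of_Bd {K : Type} [NontriviallyNormedField K] {s : K} {n : ℕ} {ρ B : ℝ}
    {f : PowerSeries (ℕ → K)} (hρ : 0 < ρ) (hs : ‖s‖ < ρ) (hf : Bd ρ B f) :
    Summable fun k => ‖PowerSeries.coeff k f n * s ^ k‖ := by
  have hq : ‖s‖ / ρ < 1 := (div_lt_one hρ).mpr hs
  have hq0 : 0 ≤ ‖s‖ / ρ := div_nonneg (norm_nonneg _) hρ.le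
  refine Summable.of_nonneg_of_le (fun k => norm_nonneg _) (fun k => ?_)
    ((summable_geometric_of_lt_one hq0 hq).mul_left B)
  rw [norm_mul, norm_pow, div_pow]
  have h1 := hf k n
  have h2 : 0 < ρ ^ k := pow_pos hρ k
  have h3 : ‖PowerSeries.coeff k f n‖ ≤ B / ρ ^ k := (le_div_iff₀ h2).mpr h1
  calc ‖PowerSeries.coeff k f n‖ * ‖s‖ ^ k ≤ (B / ρ ^ k) * ‖s‖ ^ k :=
        mul_le_mul_of_nonneg_right h3 (by positivity)
    _ = B * (‖s‖ ^ k / ρ ^ k) := by ring

theorem ev_main : S_Ev := by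
  intro K _ _ s n ρ B B' f g hρ hs hf hg
  have sf := summable_of_Bd (n := n) hρ hs hf
  have sg := summable_of_Bd (n := n) hρ hs hg
  constructor
  · unfold ev
    rw [tsum_mul_tsum_eq_tsum_sum_antidiagonal_of_summable_norm sf sg]
    refine tsum_congr fun k => ?_
    rw [PowerSeries.coeff_mul, Finset.sum_apply, Finset.sum_mul]
    refine Finset.sum_congr rfl fun kl hkl => ?_
    rw [Finset.HasAntidiagonal.mem_antidiagonal] at hkl
    rw [← hkl, pow_add, Pi.mul_apply]
    ring
  · unfold ev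
    rw [← Summable.tsum_add sf.of_norm sg.of_norm]
    refine tsum_congr fun k => ?_
    rw [map_add, Pi.add_apply, add_mul]

theorem evphi_main : S_EvPhi := by
  intro K _ s n d f hd
  unfold ev
  have hinj : Function.Injective (fun k : ℕ => d * k) := fun a b h =>
    Nat.eq_of_mul_eq_mul_left (by omega) h
  rw [← hinj.tsum_eq (f := fun k => PowerSeries.coeff k (Phi d f) n * s ^ k)]
  · refine tsum_congr fun k => ?_
    unfold Phi
    simp only [PowerSeries.coeff_mk]
    rw [if_pos (dvd_mul_right d k), Nat.mul_div_cancel_left k (by omega), pow_mul]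
  · intro k hk
    rw [Function.mem_support] at hk
    by_contra hcon
    apply hk
    have hnd : ¬ d ∣ k := fun ⟨m, hm⟩ => hcon ⟨m, hm.symm⟩
    unfold Phi
    rw [PowerSeries.coeff_mk, if_neg hnd]
    simp

end Pool.Agent.W411.DM
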