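import Pool.Agent.W600.DM.Stm

/-! Project DM, part LOW: zero or lower bound along residue classes. -/

set_option autoImplicit false

namespace Pool.Agent.W411.DM.Low

open Pool.Agent.W600.DM
open Filter Topology

section units

variable {K : Type} [NontriviallyNormedField K] [IsUltrametricDist K]

lemma norm_of_ou {b : K} (hb : ‖b - 1‖ < 1) : ‖b‖ = 1 := by
  have h : b = 1 + (b - 1) := by ring
  rw [h]
  have h2 := IsUltrametricDist.norm_add_eq_max_of_norm_ne_norm (x := (1 : K)) (y := b - 1)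
    (by rw [norm_one]; exact hb.ne')
  rw [h2, norm_one, max_eq_left hb.le]

lemma norm_sum_pow_le {b : K} (hb : ‖b‖ ≤ 1) (m : ℕ) : ‖∑ i ∈ Finset.range m, b ^ i‖ ≤ 1 := by
  refine IsUltrametricDist.norm_sum_le_of_forall_le_of_nonneg zero_le_one fun i _ => ?_
  rw [norm_pow]
  exact pow_le_one₀ (norm_nonneg _) hb

lemma ou_pow {b : K} (hb : ‖b‖ ≤ 1) (m : ℕ) : ‖b ^ m - 1‖ ≤ ‖b - 1‖ := by
  rw [← mul_geom_sum, norm_mul]
  calc ‖b - 1‖ * ‖∑ i ∈ Finset.range m, b ^ i‖ ≤ ‖b - 1‖ * 1 :=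
        mul_le_mul_of_nonneg_left (norm_sum_pow_le hb m) (norm_nonneg _)
    _ = ‖b - 1‖ := mul_one _

lemma sum_pow_eq (b : K) (m : ℕ) :
    ∑ i ∈ Finset.range m, b ^ i = (m : K) + ∑ i ∈ Finset.range m, (b ^ i - 1) := by
  rw [Finset.sum_sub_distrib]
  simp

lemma norm_sum_pow_sub_le {b : K} (hb : ‖b‖ ≤ 1) (m : ℕ) :
    ‖∑ i ∈ Finset.range m, (b ^ i - 1)‖ ≤ ‖b - 1‖ :=
  IsUltrametricDist.norm_sum_le_of_forall_le_of_nonneg (norm_nonneg _) fun i _ => ou_pow hb i

lemma ou_D {b : K} (hb : ‖b‖ ≤ 1) (D : ℕ) :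
    ‖b ^ D - 1‖ ≤ max ‖(D : K)‖ ‖b - 1‖ * ‖b - 1‖ := by
  rw [← mul_geom_sum, norm_mul, mul_comm]
  refine mul_le_mul_of_nonneg_right ?_ (norm_nonneg _)
  rw [sum_pow_eq]
  exact (IsUltrametricDist.norm_add_le_max _ _).trans
    (max_le_max le_rfl (norm_sum_pow_sub_le hb D))

lemma ou_D_pow {b : K} (hb : ‖b - 1‖ < 1) (D j : ℕ) :
    ‖b ^ (D ^ j) - 1‖ ≤ max ‖(D : K)‖ ‖b - 1‖ ^ j * ‖b - 1‖ := by
  have hb1 : ‖b‖ ≤ 1 := (norm_of_ou hb).le
  induction j with
  | zero => simp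
  | succ j ih =>
    have hθ : 0 ≤ max ‖(D : K)‖ ‖b - 1‖ := (norm_nonneg _).trans (le_max_left _ _)
    have h1 : ‖b ^ (D ^ j) - 1‖ ≤ ‖b - 1‖ := ou_pow hb1 _
    have h2 := ou_D (b := b ^ (D ^ j)) (by rw [norm_pow]; exact pow_le_one₀ (norm_nonneg _) hb1) D
    rw [← pow_mul, ← pow_succ] at h2
    calc ‖b ^ (D ^ (j + 1)) - 1‖ ≤ max ‖(D : K)‖ ‖b ^ (D ^ j) - 1‖ * ‖b ^ (D ^ j) - 1‖ := h2
      _ ≤ max ‖(D : K)‖ ‖b - 1‖ * (max ‖(D : K)‖ ‖b - 1‖ ^ j * ‖b - 1‖) :=
          mul_le_mul (max_le_max le_rfl h1) ih (norm_nonneg _) hθ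
      _ = max ‖(D : K)‖ ‖b - 1‖ ^ (j + 1) * ‖b - 1‖ := by rw [pow_succ]; ring

lemma norm_natCast_eq_one {p : ℕ} (hp : p.Prime) (hpn : ‖(p : K)‖ < 1) {k : ℕ} (hk : ¬ p ∣ k) :
    ‖(k : K)‖ = 1 := by
  have hco : IsCoprime (k : ℤ) (p : ℤ) :=
    Nat.isCoprime_iff_coprime.mpr ((Nat.Prime.coprime_iff_not_dvd hp).mpr hk).symm
  obtain ⟨x, y, hxy⟩ := hco
  have h1 : (x : K) * (k : K) + (y : K) * (p : K) = 1 := by exact_mod_cast congrArg (Int.cast (R := K)) hxy
  refine le_antisymm (IsUltrametricDist.norm_natCast_le_one K k) ?_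
  by_contra hlt
  push Not at hlt
  have h2 : ‖(x : K) * (k : K) + (y : K) * (p : K)‖ < 1 := by
    refine lt_of_le_of_lt (IsUltrametricDist.norm_add_le_max _ _) (max_lt ?_ ?_)
    · rw [norm_mul]
      calc ‖(x : K)‖ * ‖(k : K)‖ ≤ 1 * ‖(k : K)‖ :=
            mul_le_mul_of_nonneg_right (IsUltrametricDist.norm_intCast_le_one K x) (norm_nonneg _)
        _ < 1 := by rw [one_mul]; exact hlt
    · rw [norm_mul]
      calc ‖(y : K)‖ * ‖(p : K)‖ ≤ 1 * ‖(p : K)‖ :=
            mul_le_mul_of_nonneg_right (IsUltrametricDist.norm_intCast_le_one K y) (norm_nonneg _)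
        _ < 1 := by rw [one_mul]; exact hpn
  rw [h1, norm_one] at h2
  exact lt_irrefl _ h2

lemma ou_eq_one {p : ℕ} (hp : p.Prime) (hpn : ‖(p : K)‖ < 1) {k : ℕ} (hk : ¬ p ∣ k) {b : K}
    (hb : ‖b - 1‖ < 1) (h : b ^ k = 1) : b = 1 := by
  have h1 : (b - 1) * ∑ i ∈ Finset.range k, b ^ i = 0 := by rw [mul_geom_sum, h, sub_self]
  rcases mul_eq_zero.mp h1 with h2 | h2
  · exact sub_eq_zero.mp h2
  · exfalso
    rw [sum_pow_eq] at h2
    have h3 : (k : K) = - ∑ i ∈ Finset.range k, (b ^ i - 1) := eq_neg_of_add_eq_zero_left h2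
    have h4 := norm_natCast_eq_one hp hpn hk
    rw [h3, norm_neg] at h4
    have h5 := norm_sum_pow_sub_le (norm_of_ou hb).le k
    rw [h4] at h5
    exact absurd hb (not_lt.mpr h5)

lemma ou_mul {a b : K} (ha : ‖a - 1‖ < 1) (hb : ‖b - 1‖ < 1) : ‖a * b - 1‖ < 1 := by
  have h : a * b - 1 = a * (b - 1) + (a - 1) := by ring
  rw [h]
  refine lt_of_le_of_lt (IsUltrametricDist.norm_add_le_max _ _) (max_lt ?_ ha)
  rw [norm_mul, norm_of_ou ha, one_mul]
  exact hb

lemma ou_inv {a : K} (ha : ‖a - 1‖ < 1) : ‖a⁻¹ - 1‖ < 1 := by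
  have ha0 : a ≠ 0 := by
    intro h
    have := norm_of_ou ha
    rw [h, norm_zero] at this
    exact zero_ne_one this
  have h : a⁻¹ - 1 = -(a⁻¹ * (a - 1)) := by field_simp; ring
  rw [h, norm_neg, norm_mul, norm_inv, norm_of_ou ha, inv_one, one_mul]
  exact ha

lemma teich [CompleteSpace K] {D : ℕ} (hD : 2 ≤ D) (hDn : ‖(D : K)‖ < 1) {a : K} (ha : ‖a‖ = 1)
    (ha1 : ‖a ^ (D - 1) - 1‖ < 1) :
    ∃ ω : K, ω ^ (D - 1) = 1 ∧ ‖a / ω - 1‖ < 1 := by
  set b : K := a ^ (D - 1) with hb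
  set θ : ℝ := max ‖(D : K)‖ ‖b - 1‖ with hθ
  have hθ1 : θ < 1 := max_lt hDn ha1
  have hθ0 : 0 ≤ θ := (norm_nonneg _).trans (le_max_left _ _)
  have ha0 : a ≠ 0 := by
    intro h
    rw [h, norm_zero] at ha
    exact zero_ne_one ha
  have hD1 : D = (D - 1) + 1 := by omega
  have hcs : CauchySeq (fun j => a ^ (D ^ j)) := by
    refine cauchySeq_of_le_geometric θ ‖b - 1‖ hθ1 fun j => ?_
    rw [dist_comm, dist_eq_norm]
    have h1 : a ^ (D ^ (j + 1)) - a ^ (D ^ j) = a ^ (D ^ j) * (b ^ (D ^ j) - 1) := by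
      have h2 : D ^ (j + 1) = D ^ j + (D - 1) * D ^ j := by
        calc D ^ (j + 1) = ((D - 1) + 1) * D ^ j := by rw [← hD1, pow_succ, mul_comm]
          _ = D ^ j + (D - 1) * D ^ j := by ring
      rw [h2, pow_add, hb, ← pow_mul]
      ring
    rw [h1, norm_mul, norm_pow, ha, one_pow, one_mul, mul_comm]
    exact ou_D_pow ha1 D j
  obtain ⟨ω, hω⟩ := cauchySeq_tendsto_of_complete hcs
  have hωn : ‖ω‖ = 1 := by
    have h1 : Tendsto (fun j => ‖a ^ (D ^ j)‖) atTop (𝓝 ‖ω‖) := hω.norm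
    have h2 : (fun j : ℕ => ‖a ^ (D ^ j)‖) = fun _ => 1 := by
      funext j
      rw [norm_pow, ha, one_pow]
    rw [h2] at h1
    exact (tendsto_nhds_unique h1 tendsto_const_nhds)
  have hω0 : ω ≠ 0 := by
    intro h
    rw [h, norm_zero] at hωn
    exact zero_ne_one hωn
  have hωD : ω ^ D = ω := by
    have h1 : Tendsto (fun j => (a ^ (D ^ j)) ^ D) atTop (𝓝 (ω ^ D)) := hω.pow D
    have h2 : Tendsto (fun j => a ^ (D ^ (j + 1))) atTop (𝓝 ω) := hω.comp (tendsto_add_atTop_nat 1)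
    have h3 : (fun j => (a ^ (D ^ j)) ^ D) = fun j => a ^ (D ^ (j + 1)) := by
      funext j
      rw [← pow_mul, ← pow_succ]
    rw [h3] at h1
    exact tendsto_nhds_unique h1 h2
  refine ⟨ω, ?_, ?_⟩
  · have h1 : ω ^ (D - 1) * ω = 1 * ω := by
      rw [← pow_succ, ← hD1, hωD, one_mul]
    exact mul_right_cancel₀ hω0 h1
  · have h1 : ∀ j, ‖a ^ (D ^ j) / a - 1‖ ≤ ‖b - 1‖ := by
      intro j
      have h2 : ∃ m, D ^ j = 1 + (D - 1) * m := by
        have h3 : (D - 1) ∣ D ^ j - 1 := by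
          have := Nat.sub_dvd_pow_sub_pow D 1 j
          rwa [one_pow] at this
        obtain ⟨m, hm⟩ := h3
        have : 1 ≤ D ^ j := Nat.one_le_pow _ _ (by omega)
        exact ⟨m, by omega⟩
      obtain ⟨m, hm⟩ := h2
      have h4 : a ^ (D ^ j) / a = b ^ m := by
        rw [hm, pow_add, pow_one, mul_div_assoc, mul_comm, div_mul_cancel₀ _ ha0, hb, pow_mul]
      rw [h4]
      exact ou_pow (norm_of_ou ha1).le m
    have h2 : Tendsto (fun j => ‖a ^ (D ^ j) / a - 1‖) atTop (𝓝 ‖ω / a - 1‖) :=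
      ((hω.div_const a).sub_const 1).norm
    have h3 : ‖ω / a - 1‖ < 1 :=
      lt_of_le_of_lt (le_of_tendsto h2 (Eventually.of_forall h1)) ha1
    have h4 := ou_inv h3
    rwa [inv_div] at h4

end units

section ev

variable {K : Type} [NontriviallyNormedField K] {ι : Type} [Fintype ι]

/-- monomials in the `u i` -/
noncomputable def mon (u : ι → K) (γ : ι → ℤ) : K := ∏ i, u i ^ γ i

lemma mon_zero (u : ι → K) : mon u 0 = 1 := by simp [mon]

lemma mon_add {u : ι → K} (hu : ∀ i, u i ≠ 0) (γ γ' : ι → ℤ) :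
    mon u (γ + γ') = mon u γ * mon u γ' := by
  unfold mon
  rw [← Finset.prod_mul_distrib]
  exact Finset.prod_congr rfl fun i _ => by rw [Pi.add_apply, zpow_add₀ (hu i)]

lemma mon_neg (u : ι → K) (γ : ι → ℤ) : mon u (-γ) = (mon u γ)⁻¹ := by
  unfold mon
  rw [← Finset.prod_inv_distrib]
  exact Finset.prod_congr rfl fun i _ => by rw [Pi.neg_apply, zpow_neg]

lemma mon_sub {u : ι → K} (hu : ∀ i, u i ≠ 0) (γ γ' : ι → ℤ) :
    mon u (γ - γ') = mon u γ / mon u γ' := by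
  rw [sub_eq_add_neg, mon_add hu, mon_neg, div_eq_mul_inv]

lemma mon_ne_zero {u : ι → K} (hu : ∀ i, u i ≠ 0) (γ : ι → ℤ) : mon u γ ≠ 0 :=
  Finset.prod_ne_zero_iff.mpr fun i _ => zpow_ne_zero _ (hu i)

lemma norm_mon {u : ι → K} (hu : ∀ i, ‖u i‖ = 1) (γ : ι → ℤ) : ‖mon u γ‖ = 1 := by
  unfold mon
  rw [norm_prod]
  exact Finset.prod_eq_one fun i _ => by rw [norm_zpow, hu i, one_zpow]

/-- torsion exponents -/
lemma exists_exponent {u : ι → K} (hu : ∀ i, u i ≠ 0) :
    ∃ e : ℕ, 1 ≤ e ∧ ∀ (γ : ι → ℤ) (m : ℕ), 1 ≤ m → mon u γ ^ m = 1 → mon u γ ^ e = 1 := by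
  let L : AddSubgroup (ι → ℤ) :=
    { carrier := {γ | ∃ m : ℕ, 1 ≤ m ∧ mon u γ ^ m = 1}
      add_mem' := by
        rintro a b ⟨m, hm, hma⟩ ⟨m', hm', hmb⟩
        refine ⟨m * m', Nat.mul_pos hm hm', ?_⟩
        rw [mon_add hu, mul_pow, pow_mul, hma, one_pow, mul_comm m m', pow_mul, hmb, one_pow,
          one_mul]
      zero_mem' := ⟨1, le_rfl, by rw [mon_zero, one_pow]⟩
      neg_mem' := by
        rintro a ⟨m, hm, hma⟩
        exact ⟨m, hm, by rw [mon_neg, inv_pow, hma, inv_one]⟩ }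
  obtain ⟨S, hS⟩ := IsNoetherian.noetherian (AddSubgroup.toIntSubmodule L)
  have hSL : ∀ s ∈ S, ∃ m : ℕ, 1 ≤ m ∧ mon u s ^ m = 1 := by
    intro s hs
    have h1 : s ∈ AddSubgroup.toIntSubmodule L := by
      rw [← hS]
      exact Submodule.subset_span hs
    exact h1
  choose! mm hm1 hm2 using hSL
  set e : ℕ := ∏ s ∈ S, mm s with he
  have he1 : 1 ≤ e := Nat.pos_of_ne_zero (Finset.prod_ne_zero_iff.mpr fun s hs => by
    have := hm1 s hs
    omega)
  let T : AddSubgroup (ι → ℤ) :=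
    { carrier := {γ | mon u γ ^ e = 1}
      add_mem' := by
        intro a b ha hb
        simp only [Set.mem_ofPred_eq] at ha hb ⊢
        rw [mon_add hu, mul_pow, ha, hb, one_mul]
      zero_mem' := by
        simp only [Set.mem_ofPred_eq]
        rw [mon_zero, one_pow]
      neg_mem' := by
        intro a ha
        simp only [Set.mem_ofPred_eq] at ha ⊢
        rw [mon_neg, inv_pow, ha, inv_one] }
  have hle : Submodule.span ℤ (S : Set (ι → ℤ)) ≤ AddSubgroup.toIntSubmodule T := by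
    rw [Submodule.span_le]
    intro s hs
    have hs' : s ∈ S := hs
    change mon u s ^ e = 1
    rw [he, ← Finset.mul_prod_erase S mm hs', pow_mul, hm2 s hs', one_pow]
  refine ⟨e, he1, ?_⟩
  intro γ m hm hγ
  have h1 : γ ∈ AddSubgroup.toIntSubmodule L := ⟨m, hm, hγ⟩
  rw [← hS] at h1
  exact hle h1

/-- one common exponent for one-units -/
lemma exists_common [IsUltrametricDist K] {u : ι → K} (hu : ∀ i, ‖u i‖ = 1)
    (h : ∀ i, ∃ M : ℕ, 1 ≤ M ∧ ‖u i ^ M - 1‖ < 1) :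
    ∃ M : ℕ, 1 ≤ M ∧ ∀ γ : ι → ℤ, ‖mon u γ ^ M - 1‖ < 1 := by
  classical
  choose mm hm1 hm2 using h
  have hu0 : ∀ i, u i ≠ 0 := fun i h => by
    have := hu i
    rw [h, norm_zero] at this
    exact zero_ne_one this
  refine ⟨∏ i, mm i, Nat.pos_of_ne_zero (Finset.prod_ne_zero_iff.mpr fun i _ => by
    have := hm1 i
    omega), fun γ => ?_⟩
  set M : ℕ := ∏ i, mm i with hM
  have h1 : ∀ i, ‖u i ^ M - 1‖ < 1 := by
    intro i
    rw [hM, ← Finset.mul_prod_erase Finset.univ mm (Finset.mem_univ i), pow_mul]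
    exact lt_of_le_of_lt (ou_pow (norm_of_ou (hm2 i)).le _) (hm2 i)
  have h2 : ∀ i, ‖(u i ^ γ i) ^ M - 1‖ < 1 := by
    intro i
    rw [← zpow_natCast, ← zpow_mul, mul_comm, zpow_mul, zpow_natCast]
    rcases Int.eq_nat_or_neg (γ i) with ⟨n, hn | hn⟩
    · rw [hn, zpow_natCast]
      exact lt_of_le_of_lt (ou_pow (norm_of_ou (h1 i)).le _) (h1 i)
    · rw [hn, zpow_neg, zpow_natCast]
      exact ou_inv (lt_of_le_of_lt (ou_pow (norm_of_ou (h1 i)).le _) (h1 i))
  unfold mon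
  rw [← Finset.prod_pow]
  have h3 : ∀ s : Finset ι, ‖∏ i ∈ s, (u i ^ γ i) ^ M - 1‖ < 1 := by
    classical
    intro s
    induction s using Finset.induction_on with
    | empty => simp
    | insert a s ha ih =>
      rw [Finset.prod_insert ha]
      exact ou_mul (h2 a) ih
  exact h3 Finset.univ

/-- exponential sequences -/
def E (d : ℕ) (g : K) : ℕ → K := fun n => g ^ (d ^ n)

lemma mem_span_of_mem_Alg {u : ι → K} (hu : ∀ i, u i ≠ 0) {d : ℕ} {h : ℕ → K}
    (hh : h ∈ Alg d u) :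
    ∃ l : K →₀ K, (∀ g ∈ l.support, ∃ γ : ι → ℤ, g = mon u γ) ∧
      ∀ n, h n = ∑ g ∈ l.support, l g * g ^ (d ^ n) := by
  classical
  let Ms : Submonoid (ℕ → K) :=
    { carrier := {f | ∃ γ : ι → ℤ, f = E d (mon u γ)}
      mul_mem' := by
        rintro a b ⟨γ, rfl⟩ ⟨γ', rfl⟩
        refine ⟨γ + γ', ?_⟩
        funext n
        rw [Pi.mul_apply, E, E, E, mon_add hu, mul_pow]
      one_mem' := ⟨0, by funext n; rw [E, mon_zero, one_pow]; rfl⟩ }
  have h1 : h ∈ Submodule.span K ((E d) '' {g : K | ∃ γ : ι → ℤ, g = mon u γ}) := by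
    have h2 : h ∈ Subalgebra.toSubmodule (Alg d u) := hh
    unfold Alg at h2
    rw [Algebra.adjoin_eq_span] at h2
    refine Submodule.span_mono ?_ h2
    have h3 : Submonoid.closure {f : ℕ → K | ∃ i, f = (fun n => u i ^ (d ^ n)) ∨
        f = (fun n => (u i)⁻¹ ^ (d ^ n))} ≤ Ms := by
      rw [Submonoid.closure_le]
      rintro f ⟨i, rfl | rfl⟩
      · refine ⟨Pi.single i 1, ?_⟩
        funext n
        rw [E]
        congr 1
        unfold mon
        rw [Finset.prod_eq_single i]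
        · simp
        · intro j _ hj
          simp [Pi.single_eq_of_ne hj]
        · intro h; exact absurd (Finset.mem_univ i) h
      · refine ⟨Pi.single i (-1), ?_⟩
        funext n
        rw [E]
        congr 1
        unfold mon
        rw [Finset.prod_eq_single i]
        · simp
        · intro j _ hj
          simp [Pi.single_eq_of_ne hj]
        · intro h; exact absurd (Finset.mem_univ i) h
    intro f hf
    obtain ⟨γ, hγ⟩ := h3 hf
    exact ⟨mon u γ, ⟨γ, rfl⟩, hγ.symm⟩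
  rw [Finsupp.mem_span_image_iff_linearCombination] at h1
  obtain ⟨l, hl, hlh⟩ := h1
  refine ⟨l, fun g hg => ?_, fun n => ?_⟩
  · exact (Finsupp.mem_supported K l).mp hl hg
  · rw [← hlh, Finsupp.linearCombination_apply, Finsupp.sum, Finset.sum_apply]
    rfl

end ev

theorem low_main (hE : S_Exp) : S_Low := by
  classical
  intro K _ _ _ _ p hp hpn ι _ d hd hpd u hu hM
  have hu0 : ∀ i, u i ≠ 0 := fun i h => by
    have := hu i
    rw [h, norm_zero] at this
    exact zero_ne_one this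
  obtain ⟨e, he, hexp⟩ := exists_exponent hu0
  obtain ⟨M0, hM0, hcomm⟩ := exists_common hu hM
  obtain ⟨a0, e', he', hee⟩ := Nat.exists_eq_pow_mul_and_not_dvd (show e ≠ 0 by omega) p hp.ne_one
  -- periodicity of powers modulo M0
  have hpig : ∃ i M : ℕ, 1 ≤ M ∧ ∀ r, i ≤ r → M0 ∣ d ^ r * (d ^ M - 1) := by
    have : NeZero M0 := ⟨by omega⟩
    obtain ⟨i, j, hij, heq⟩ :=
      Finite.exists_ne_map_eq_of_infinite (fun n : ℕ => (d : ZMod M0) ^ n)
    have key : ∀ i j : ℕ, i < j → (d : ZMod M0) ^ i = (d : ZMod M0) ^ j →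
        ∃ i M : ℕ, 1 ≤ M ∧ ∀ r, i ≤ r → M0 ∣ d ^ r * (d ^ M - 1) := by
      intro i j hlt h
      refine ⟨i, j - i, by omega, fun r hr => ?_⟩
      rw [← ZMod.natCast_eq_zero_iff]
      have h1 : 1 ≤ d ^ (j - i) := Nat.one_le_pow _ _ (by omega)
      obtain ⟨r', rfl⟩ := Nat.exists_eq_add_of_le hr
      rw [Nat.cast_mul, Nat.cast_sub h1]
      push_cast
      have h2 : (d : ZMod M0) ^ i * (d : ZMod M0) ^ (j - i) = (d : ZMod M0) ^ i := by
        rw [← pow_add, show i + (j - i) = j by omega]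
        exact h.symm
      rw [pow_add]
      linear_combination (d : ZMod M0) ^ r' * h2
    rcases lt_or_gt_of_ne hij with h | h
    · exact key i j h heq
    · exact key j i h heq.symm
  obtain ⟨i0, M, hM1, hdiv⟩ := hpig
  refine ⟨i0 + a0, M, hM1, fun h hh r hr => ?_⟩
  set D : ℕ := d ^ M with hD
  have hD2 : 2 ≤ D := by
    calc 2 ≤ d := hd
      _ = d ^ 1 := (pow_one d).symm
      _ ≤ d ^ M := Nat.pow_le_pow_right (by omega) hM1
  have hpD : p ∣ D := dvd_pow hpd (by omega)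
  have hDn : ‖(D : K)‖ < 1 := by
    obtain ⟨q, hq⟩ := hpD
    rw [hq, Nat.cast_mul, norm_mul]
    calc ‖(p : K)‖ * ‖(q : K)‖ ≤ ‖(p : K)‖ * 1 :=
          mul_le_mul_of_nonneg_left (IsUltrametricDist.norm_natCast_le_one K q) (norm_nonneg _)
      _ < 1 := by rw [mul_one]; exact hpn
  have hpD1 : ¬ p ∣ D - 1 := by
    intro h1
    have h2 : p ∣ D - (D - 1) := Nat.dvd_sub hpD h1
    rw [show D - (D - 1) = 1 by omega] at h2
    exact hp.one_lt.ne' (Nat.dvd_one.mp h2)
  obtain ⟨l, hl, hlh⟩ := mem_span_of_mem_Alg hu0 hh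
  -- Teichmueller parts
  have hT : ∀ g ∈ l.support, ∃ ω : K, ω ^ (D - 1) = 1 ∧ ‖g ^ (d ^ r) / ω - 1‖ < 1 := by
    intro g hg
    obtain ⟨γ, rfl⟩ := hl g hg
    refine teich hD2 hDn (by rw [norm_pow, norm_mon hu, one_pow]) ?_
    rw [← pow_mul]
    obtain ⟨q, hq⟩ := hdiv r (by omega)
    rw [hq, pow_mul]
    exact lt_of_le_of_lt (ou_pow (norm_of_ou (hcomm γ)).le q) (hcomm γ)
  choose! ω hω1 hω2 using hT
  have hω0 : ∀ g ∈ l.support, ω g ≠ 0 := by
    intro g hg h0
    have h1 := hω1 g hg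
    rw [h0, zero_pow (by omega)] at h1
    exact zero_ne_one h1
  set lam : K → K := fun g => g ^ (d ^ r) / ω g with hlam
  have hval : ∀ j, h (r + M * j) = ∑ g ∈ l.support, l g * ω g * (lam g) ^ (D ^ j) := by
    intro j
    rw [hlh]
    refine Finset.sum_congr rfl fun g hg => ?_
    have h1 : g ^ (d ^ r) = ω g * lam g := by
      rw [hlam]
      field_simp [hω0 g hg]
    have h2 : ∀ j : ℕ, (ω g) ^ (D ^ j) = ω g := by
      intro j
      induction j with
      | zero => rw [pow_zero, pow_one]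
      | succ j ih =>
        rw [pow_succ, pow_mul, ih]
        have h3 : D = (D - 1) + 1 := by omega
        rw [h3, pow_succ, hω1 g hg, one_mul]
    rw [pow_add, pow_mul, pow_mul, ← hD, h1, mul_pow, h2 j]
    ring
  have hfib : ∀ j, h (r + M * j) = ∑ z ∈ l.support.image lam,
      (∑ g ∈ l.support with lam g = z, l g * ω g) * z ^ (D ^ j) := by
    intro j
    rw [hval j, ← Finset.sum_fiberwise_of_maps_to (g := lam) (t := l.support.image lam)
      (fun g hg => Finset.mem_image_of_mem lam hg)]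
    refine Finset.sum_congr rfl fun z _ => ?_
    rw [Finset.sum_mul]
    refine Finset.sum_congr rfl fun g hg => ?_
    rw [(Finset.mem_filter.mp hg).2]
  set Cf : K → K := fun z => ∑ g ∈ l.support with lam g = z, l g * ω g with hCf
  set S : Finset K := (l.support.image lam).filter (fun x => Cf x ≠ 0) with hS
  have hsum : ∀ j, h (r + M * j) = ∑ x ∈ S, Cf x * x ^ (D ^ j) := by
    intro j
    rw [hfib j, hS, Finset.sum_filter]
    refine Finset.sum_congr rfl fun x _ => ?_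
    split_ifs with hx
    · rfl
    · push Not at hx
      change Cf x * _ = 0
      rw [hx, zero_mul]
  by_cases hne : S.Nonempty
  · right
    obtain ⟨c, k, j₁, hc, hck⟩ := hE K p hp hpn D hD2 hpD S Cf hne
      (by
        intro x hx
        obtain ⟨g, hg, rfl⟩ := Finset.mem_image.mp (Finset.mem_filter.mp hx).1
        exact hω2 g hg)
      (fun x hx => (Finset.mem_filter.mp hx).2)
      (by
        intro x hx y hy m hm hxy
        obtain ⟨g, hg, rfl⟩ := Finset.mem_image.mp (Finset.mem_filter.mp hx).1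
        obtain ⟨g', hg', rfl⟩ := Finset.mem_image.mp (Finset.mem_filter.mp hy).1
        obtain ⟨γ, hγ⟩ := hl g hg
        obtain ⟨γ', hγ'⟩ := hl g' hg'
        have n1 : lam g ≠ 0 := by
          intro h0
          have := norm_of_ou (hω2 g hg)
          rw [show g ^ (d ^ r) / ω g = lam g from rfl, h0, norm_zero] at this
          exact zero_ne_one this
        have n2 : lam g' ≠ 0 := by
          intro h0
          have := norm_of_ou (hω2 g' hg')
          rw [show g' ^ (d ^ r) / ω g' = lam g' from rfl, h0, norm_zero] at this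
          exact zero_ne_one this
        have q1 : lam g / lam g' = (g / g') ^ (d ^ r) / (ω g / ω g') := by
          rw [hlam]
          simp only
          rw [div_pow]
          field_simp [hω0 g hg, hω0 g' hg']
        have q2 : (ω g / ω g') ^ (D - 1) = 1 := by
          rw [div_pow, hω1 g hg, hω1 g' hg', div_one]
        have q3 : (lam g / lam g') ^ m = 1 := by
          rw [div_pow, hxy, div_self (pow_ne_zero _ n2)]
        -- the quotient is torsion
        have q4 : mon u (γ - γ') ^ (d ^ r * ((D - 1) * m)) = 1 := by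
          rw [mon_sub hu0, ← hγ, ← hγ', pow_mul]
          have h1 : (g / g') ^ (d ^ r) = (lam g / lam g') * (ω g / ω g') := by
            rw [q1, div_mul_cancel₀]
            exact div_ne_zero (hω0 g hg) (hω0 g' hg')
          rw [h1, mul_pow, mul_comm (D - 1) m, pow_mul, q3, one_pow, one_mul,
            mul_comm m, pow_mul, q2, one_pow]
        have hpos : 1 ≤ d ^ r * ((D - 1) * m) :=
          Nat.mul_pos (Nat.pos_of_ne_zero (pow_ne_zero _ (by omega)))
            (Nat.mul_pos (by omega) hm)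
        have q5 := hexp (γ - γ') _ hpos q4
        rw [mon_sub hu0, ← hγ, ← hγ'] at q5
        have q6 : ((g / g') ^ (d ^ r)) ^ e' = 1 := by
          have h1 : e ∣ d ^ r * e' := by
            rw [hee]
            refine mul_dvd_mul ?_ dvd_rfl
            exact (pow_dvd_pow_of_dvd hpd a0).trans (pow_dvd_pow d (by omega))
          obtain ⟨q, hq⟩ := h1
          rw [← pow_mul, hq, pow_mul, q5, one_pow]
        have q7 : (lam g / lam g') ^ (e' * (D - 1)) = 1 := by
          rw [q1, div_pow, pow_mul, q6, one_pow, mul_comm e', pow_mul, q2, one_pow, div_one]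
        have q8 : ¬ p ∣ e' * (D - 1) := by
          intro h1
          rcases (Nat.Prime.dvd_mul hp).mp h1 with h2 | h2
          · exact he' h2
          · exact hpD1 h2
        have q9 : ‖lam g / lam g' - 1‖ < 1 := by
          rw [div_eq_mul_inv]
          exact ou_mul (hω2 g hg) (ou_inv (hω2 g' hg'))
        have q10 := ou_eq_one hp hpn q8 q9 q7
        exact (div_eq_one_iff_eq n2).mp q10)
    refine ⟨c, M * k, j₁, hc, fun j hj => ?_⟩
    have h1 := hck j hj
    rw [hsum j]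
    refine le_trans (le_of_eq ?_) h1
    rw [hD, Nat.cast_pow, norm_pow, ← pow_mul, mul_assoc]
  · left
    intro j
    rw [hsum j, Finset.not_nonempty_iff_eq_empty.mp hne, Finset.sum_empty]

end Pool.Agent.W411.DM.Low
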