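import Pool.Agent.W600.DM.Stm

/-! Project DM, part SOL: solution of the functional equation in power series. -/

set_option autoImplicit false

namespace Pool.Agent.W411.DM

open Pool.Agent.W600.DM
open Filter Topology

section bd

variable {K : Type} [NontriviallyNormedField K]

lemma Bd.nonneg {ρ B : ℝ} {f : PowerSeries (ℕ → K)} (h : Bd ρ B f) : 0 ≤ B := by
  have := h 0 0
  rw [pow_zero, mul_one] at this
  exact le_trans (norm_nonneg _) this

lemma Bd.mono {ρ B B' : ℝ} {f : PowerSeries (ℕ → K)} (h : Bd ρ B f) (hB : B ≤ B') :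
    Bd ρ B' f := fun k n => (h k n).trans hB

lemma Bd.neg {ρ B : ℝ} {f : PowerSeries (ℕ → K)} (h : Bd ρ B f) : Bd ρ B (-f) := by
  intro k n
  rw [map_neg, Pi.neg_apply, norm_neg]
  exact h k n

lemma Bd.zero {ρ B : ℝ} (hB : 0 ≤ B) : Bd ρ B (0 : PowerSeries (ℕ → K)) := by
  intro k n
  simpa using hB

lemma Bd.smul {ρ B : ℝ} {f : PowerSeries (ℕ → K)} (h : Bd ρ B f) (a : K) :
    Bd ρ (‖a‖ * B) (a • f) := by
  intro k n
  rw [PowerSeries.coeff_smul, Pi.smul_apply, smul_eq_mul, norm_mul, mul_assoc]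
  exact mul_le_mul_of_nonneg_left (h k n) (norm_nonneg _)

lemma Bd.C {ρ B : ℝ} {a : ℕ → K} (h : ∀ n, ‖a n‖ ≤ B) : Bd ρ B (PowerSeries.C a) := by
  have hB : 0 ≤ B := (norm_nonneg _).trans (h 0)
  intro k n
  rw [PowerSeries.coeff_C]
  split_ifs with hk
  · subst hk
    simpa using h n
  · simpa using hB

lemma Bd.one {ρ : ℝ} : Bd ρ 1 (1 : PowerSeries (ℕ → K)) := by
  have h : Bd ρ 1 (PowerSeries.C (1 : ℕ → K)) := Bd.C (fun n => by simp)
  simpa using h

lemma Bd.X_pow {ρ : ℝ} (hρ : 0 ≤ ρ) (e : ℕ) :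
    Bd ρ (ρ ^ e) ((PowerSeries.X : PowerSeries (ℕ → K)) ^ e) := by
  intro k n
  rw [PowerSeries.coeff_X_pow]
  split_ifs with hk
  · subst hk
    simp
  · have : 0 ≤ ρ ^ e := pow_nonneg hρ e
    simpa using this

variable [IsUltrametricDist K]

lemma Bd.add {ρ B : ℝ} {f g : PowerSeries (ℕ → K)} (hρ : 0 ≤ ρ) (hf : Bd ρ B f)
    (hg : Bd ρ B g) : Bd ρ B (f + g) := by
  intro k n
  rw [map_add, Pi.add_apply]
  have h := IsUltrametricDist.norm_add_le_max (PowerSeries.coeff k f n) (PowerSeries.coeff k g n)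
  have hk : 0 ≤ ρ ^ k := pow_nonneg hρ k
  rcases max_choice ‖PowerSeries.coeff k f n‖ ‖PowerSeries.coeff k g n‖ with h1 | h1
  · rw [h1] at h
    exact (mul_le_mul_of_nonneg_right h hk).trans (hf k n)
  · rw [h1] at h
    exact (mul_le_mul_of_nonneg_right h hk).trans (hg k n)

lemma Bd.sub {ρ B : ℝ} {f g : PowerSeries (ℕ → K)} (hρ : 0 ≤ ρ) (hf : Bd ρ B f)
    (hg : Bd ρ B g) : Bd ρ B (f - g) := by
  rw [sub_eq_add_neg]
  exact Bd.add hρ hf (Bd.neg hg)

lemma Bd.sum {ρ B : ℝ} {κ : Type} {s : Finset κ} {f : κ → PowerSeries (ℕ → K)} (hρ : 0 ≤ ρ)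
    (hB : 0 ≤ B) (hf : ∀ i ∈ s, Bd ρ B (f i)) : Bd ρ B (∑ i ∈ s, f i) := by
  classical
  induction s using Finset.induction_on with
  | empty => simpa using Bd.zero hB
  | insert a s ha ih =>
    rw [Finset.sum_insert ha]
    exact Bd.add hρ (hf a (Finset.mem_insert_self _ _))
      (ih fun i hi => hf i (Finset.mem_insert_of_mem hi))

lemma Bd.mul {ρ B B' : ℝ} {f g : PowerSeries (ℕ → K)} (hρ : 0 ≤ ρ) (hf : Bd ρ B f)
    (hg : Bd ρ B' g) : Bd ρ (B * B') (f * g) := by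
  intro k n
  rw [PowerSeries.coeff_mul, Finset.sum_apply]
  have hne : (Finset.HasAntidiagonal.antidiagonal k).Nonempty :=
    ⟨(0, k), by rw [Finset.HasAntidiagonal.mem_antidiagonal]; simp⟩
  obtain ⟨kl, hkl, hle⟩ := IsUltrametricDist.exists_norm_finsetSum_le_of_nonempty hne
    (fun kl : ℕ × ℕ => (PowerSeries.coeff kl.1 f * PowerSeries.coeff kl.2 g) n)
  rw [Finset.HasAntidiagonal.mem_antidiagonal] at hkl
  have hk : 0 ≤ ρ ^ k := pow_nonneg hρ k
  refine (mul_le_mul_of_nonneg_right hle hk).trans ?_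
  rw [Pi.mul_apply, norm_mul, ← hkl, pow_add]
  calc ‖PowerSeries.coeff kl.1 f n‖ * ‖PowerSeries.coeff kl.2 g n‖ * (ρ ^ kl.1 * ρ ^ kl.2)
      = (‖PowerSeries.coeff kl.1 f n‖ * ρ ^ kl.1) * (‖PowerSeries.coeff kl.2 g n‖ * ρ ^ kl.2) := by
        ring
    _ ≤ B * B' := mul_le_mul (hf kl.1 n) (hg kl.2 n)
        (mul_nonneg (norm_nonneg _) (pow_nonneg hρ _)) (Bd.nonneg hf)

/-- the ring of series with bound one -/
def SB (K : Type) [NontriviallyNormedField K] [IsUltrametricDist K] (ρ : ℝ) (hρ : 0 ≤ ρ) :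
    Subring (PowerSeries (ℕ → K)) where
  carrier := {f | Bd ρ 1 f}
  mul_mem' := fun ha hb => by
    have h := Bd.mul hρ ha hb
    rw [mul_one] at h
    exact h
  one_mem' := Bd.one
  add_mem' := fun ha hb => Bd.add hρ ha hb
  zero_mem' := Bd.zero zero_le_one
  neg_mem' := fun ha => Bd.neg ha

lemma mem_SB {ρ : ℝ} {hρ : 0 ≤ ρ} {f : PowerSeries (ℕ → K)} : f ∈ SB K ρ hρ ↔ Bd ρ 1 f :=
  Iff.rfl

lemma Bd.phi {ρ B : ℝ} {f : PowerSeries (ℕ → K)} {d : ℕ} (hd : 2 ≤ d) (hρ : 0 ≤ ρ) (hρ1 : ρ ≤ 1)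
    (h0 : PowerSeries.coeff 0 f = 0) (hf : Bd ρ B f) : Bd ρ (B * ρ) (Phi d f) := by
  intro k n
  unfold Phi
  rw [PowerSeries.coeff_mk]
  split_ifs with hk
  · obtain ⟨m, rfl⟩ := hk
    rw [Nat.mul_div_cancel_left m (by omega)]
    rcases Nat.eq_zero_or_pos m with hm | hm
    · subst hm
      rw [h0]
      simpa using mul_nonneg (Bd.nonneg hf) hρ
    · have h1 : d * m = m + ((d - 2) * m + (m - 1)) + 1 := by
        obtain ⟨d', rfl⟩ := Nat.exists_eq_add_of_le hd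
        obtain ⟨m', rfl⟩ := Nat.exists_eq_add_of_le hm
        simp only [Nat.add_sub_cancel_left]
        ring
      rw [h1, pow_succ, pow_add]
      have h2 : ρ ^ ((d - 2) * m + (m - 1)) ≤ 1 := pow_le_one₀ hρ hρ1
      have h3 := hf m (n + 1)
      have h4 : ‖PowerSeries.coeff m f (n + 1)‖ * (ρ ^ m * ρ ^ ((d - 2) * m + (m - 1))) ≤ B := by
        calc ‖PowerSeries.coeff m f (n + 1)‖ * (ρ ^ m * ρ ^ ((d - 2) * m + (m - 1)))
            = (‖PowerSeries.coeff m f (n + 1)‖ * ρ ^ m) * ρ ^ ((d - 2) * m + (m - 1)) := by ring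
          _ ≤ (‖PowerSeries.coeff m f (n + 1)‖ * ρ ^ m) * 1 :=
              mul_le_mul_of_nonneg_left h2 (mul_nonneg (norm_nonneg _) (pow_nonneg hρ _))
          _ ≤ B := by rw [mul_one]; exact h3
      calc ‖PowerSeries.coeff m f (n + 1)‖ * (ρ ^ m * ρ ^ ((d - 2) * m + (m - 1)) * ρ)
          = (‖PowerSeries.coeff m f (n + 1)‖ * (ρ ^ m * ρ ^ ((d - 2) * m + (m - 1)))) * ρ := by
            ring
        _ ≤ B * ρ := mul_le_mul_of_nonneg_right h4 hρ
  · simpa using mul_nonneg (Bd.nonneg hf) hρ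

/-- the quadratic part of the binomial formula -/
lemma Bd.quad {ρ ε : ℝ} {f : PowerSeries (ℕ → K)} (hρ : 0 ≤ ρ) (hε : ε ≤ 1) (hf : Bd ρ ε f)
    (d : ℕ) : Bd ρ (ε ^ 2) ((1 + f) ^ d - 1 - (d : PowerSeries (ℕ → K)) * f) := by
  have hf1 : f ∈ SB K ρ hρ := Bd.mono hf hε
  obtain ⟨k, hk⟩ := Polynomial.powAddExpansion (1 : SB K ρ hρ) ⟨f, hf1⟩ d
  have hk' := congrArg (fun x : SB K ρ hρ => (x : PowerSeries (ℕ → K))) hk
  simp only [Subring.coe_pow, Subring.coe_add, Subring.coe_one, Subring.coe_mul, one_pow, mul_one,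
    Subring.coe_natCast] at hk'
  have h2 : (1 + f) ^ d - 1 - (d : PowerSeries (ℕ → K)) * f = (k : PowerSeries (ℕ → K)) * f ^ 2 := by
    rw [hk']
    ring
  rw [h2, pow_two f]
  have h3 := Bd.mul hρ (mem_SB.mp k.2) (Bd.mul hρ hf hf)
  rw [one_mul, ← pow_two] at h3
  exact h3

end bd

/-- the series with coefficients in `A` -/
def SA {K : Type} [Field K] (A : Subalgebra K (ℕ → K)) : Subalgebra K (PowerSeries (ℕ → K)) where
  carrier := {f | ∀ k, PowerSeries.coeff k f ∈ A}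
  mul_mem' := fun {a b} ha hb k => by
    rw [PowerSeries.coeff_mul]
    exact sum_mem fun kl _ => mul_mem (ha _) (hb _)
  add_mem' := fun {a b} ha hb k => by
    rw [map_add]
    exact add_mem (ha _) (hb _)
  algebraMap_mem' := fun r k => by
    rw [PowerSeries.algebraMap_apply, PowerSeries.coeff_C]
    split_ifs
    · exact A.algebraMap_mem r
    · exact A.zero_mem

lemma mem_SA {K : Type} [Field K] {A : Subalgebra K (ℕ → K)} {f : PowerSeries (ℕ → K)} :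
    f ∈ SA A ↔ ∀ k, PowerSeries.coeff k f ∈ A := Iff.rfl

lemma C_mem_SA {K : Type} [Field K] {A : Subalgebra K (ℕ → K)} {a : ℕ → K} (ha : a ∈ A) :
    PowerSeries.C a ∈ SA A := by
  intro k
  rw [PowerSeries.coeff_C]
  split_ifs
  · exact ha
  · exact A.zero_mem

lemma X_mem_SA {K : Type} [Field K] {A : Subalgebra K (ℕ → K)} :
    (PowerSeries.X : PowerSeries (ℕ → K)) ∈ SA A := by
  intro k
  rw [PowerSeries.coeff_X]
  split_ifs
  · exact A.one_mem
  · exact A.zero_mem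

lemma phi_mem_SA {K : Type} [Field K] {A : Subalgebra K (ℕ → K)}
    (hA : ∀ f ∈ A, (fun n => f (n + 1)) ∈ A) (d : ℕ) {f : PowerSeries (ℕ → K)}
    (hf : f ∈ SA A) : Phi d f ∈ SA A := by
  intro k
  unfold Phi
  rw [PowerSeries.coeff_mk]
  split_ifs
  · exact hA _ (hf _)
  · exact A.zero_mem

section op

variable {K : Type} [NontriviallyNormedField K] {ι : Type} [Fintype ι]

/-- the operator -/
noncomputable def Op (d : ℕ) (T : ι → Finset (ι → ℕ)) (c : ι → (ι → ℕ) → K)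
    (e : ι → (ι → ℕ) → ℕ) (w : ι → (ι → ℕ) → ℕ → K) (ξ : ι → PowerSeries (ℕ → K)) :
    ι → PowerSeries (ℕ → K) := fun i =>
  ((d : K)⁻¹) • (Phi d (ξ i) - ((1 + ξ i) ^ d - 1 - (d : PowerSeries (ℕ → K)) * ξ i)
    - ∑ β ∈ T i, PowerSeries.C (c i β • w i β) * PowerSeries.X ^ (e i β) *
        ∏ j, (1 + ξ j) ^ (β j))

/-- the set on which the operator acts -/
structure Good (A : Subalgebra K (ℕ → K)) (ρ δ : ℝ) (ξ : ι → PowerSeries (ℕ → K)) : Prop where
  h0 : ∀ i, PowerSeries.coeff 0 (ξ i) = 0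
  hA : ∀ i, ξ i ∈ SA A
  hB : ∀ i, Bd ρ δ (ξ i)

variable {d : ℕ} {T : ι → Finset (ι → ℕ)} {c : ι → (ι → ℕ) → K}
    {e : ι → (ι → ℕ) → ℕ} {w : ι → (ι → ℕ) → ℕ → K}

lemma op_good [IsUltrametricDist K] [CharZero K] (hd : 2 ≤ d) (hd1 : ‖(d : K)‖ < 1)
    {A : Subalgebra K (ℕ → K)}
    (hA : ∀ f ∈ A, (fun n => f (n + 1)) ∈ A) (he : ∀ i, ∀ β ∈ T i, 1 ≤ e i β)
    (hw : ∀ i, ∀ β ∈ T i, w i β ∈ A ∧ ∀ n, ‖w i β n‖ ≤ 1) {ρ : ℝ} (hρ : 0 < ρ)
    (hρ1 : ρ ≤ ‖(d : K)‖) (hc : ∀ i, ∀ β ∈ T i, ‖c i β‖ * ρ ≤ ‖(d : K)‖ ^ 2)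
    {ξ : ι → PowerSeries (ℕ → K)} (hξ : Good A ρ ‖(d : K)‖ ξ) :
    Good A ρ ‖(d : K)‖ (Op d T c e w ξ) := by
  have hd0 : (d : K) ≠ 0 := by
    have : d ≠ 0 := by omega
    exact_mod_cast this
  have hδ : 0 < ‖(d : K)‖ := norm_pos_iff.mpr hd0
  have hρ1' : ρ ≤ 1 := hρ1.trans hd1.le
  constructor
  · intro i
    unfold Op
    rw [PowerSeries.coeff_smul]
    have e1 : PowerSeries.coeff 0 (Phi d (ξ i)) = 0 := by
      unfold Phi
      rw [PowerSeries.coeff_mk, if_pos (dvd_zero d), Nat.zero_div, hξ.h0 i]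
      rfl
    have e2 : PowerSeries.coeff 0 ((1 + ξ i) ^ d - 1 - (d : PowerSeries (ℕ → K)) * ξ i) = 0 := by
      have h0 : PowerSeries.constantCoeff (ξ i) = 0 := by
        rw [← PowerSeries.coeff_zero_eq_constantCoeff_apply]; exact hξ.h0 i
      rw [PowerSeries.coeff_zero_eq_constantCoeff_apply]
      simp [h0]
    have e3 : PowerSeries.coeff 0 (∑ β ∈ T i, PowerSeries.C (c i β • w i β) *
        PowerSeries.X ^ (e i β) * ∏ j, (1 + ξ j) ^ (β j)) = 0 := by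
      rw [map_sum]
      refine Finset.sum_eq_zero fun β hβ => ?_
      rw [PowerSeries.coeff_zero_eq_constantCoeff_apply]
      have := he i β hβ
      simp only [map_mul, map_pow, PowerSeries.constantCoeff_X]
      rw [zero_pow (by omega)]
      simp
    rw [map_sub, map_sub, e1, e2, e3]
    simp
  · intro i
    unfold Op
    refine (SA A).smul_mem ?_ _
    refine sub_mem (sub_mem (phi_mem_SA hA d (hξ.hA i)) ?_) ?_
    · refine sub_mem (sub_mem (pow_mem (add_mem (one_mem _) (hξ.hA i)) d) (one_mem _)) ?_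
      exact mul_mem (natCast_mem _ d) (hξ.hA i)
    · refine sum_mem fun β hβ => mul_mem (mul_mem ?_ (pow_mem X_mem_SA _)) ?_
      · exact C_mem_SA (A.smul_mem (hw i β hβ).1 _)
      · exact prod_mem fun j _ => pow_mem (add_mem (one_mem _) (hξ.hA j)) _
  · intro i
    unfold Op
    have hB2 : ‖(d : K)‖ * ‖(d : K)‖ = ‖(d : K)‖ ^ 2 := (pow_two _).symm
    have b1 : Bd ρ (‖(d : K)‖ ^ 2) (Phi d (ξ i)) := by
      refine Bd.mono (Bd.phi hd hρ.le hρ1' (hξ.h0 i) (hξ.hB i)) ?_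
      rw [← hB2]
      exact mul_le_mul_of_nonneg_left hρ1 hδ.le
    have b2 : Bd ρ (‖(d : K)‖ ^ 2) ((1 + ξ i) ^ d - 1 - (d : PowerSeries (ℕ → K)) * ξ i) :=
      Bd.quad hρ.le hd1.le (hξ.hB i) d
    have b3 : Bd ρ (‖(d : K)‖ ^ 2) (∑ β ∈ T i, PowerSeries.C (c i β • w i β) *
        PowerSeries.X ^ (e i β) * ∏ j, (1 + ξ j) ^ (β j)) := by
      refine Bd.sum hρ.le (by positivity) fun β hβ => ?_
      have h1 : Bd ρ (‖c i β‖) (PowerSeries.C (c i β • w i β)) := by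
        refine Bd.C fun n => ?_
        rw [Pi.smul_apply, smul_eq_mul, norm_mul]
        calc ‖c i β‖ * ‖w i β n‖ ≤ ‖c i β‖ * 1 :=
              mul_le_mul_of_nonneg_left ((hw i β hβ).2 n) (norm_nonneg _)
          _ = ‖c i β‖ := mul_one _
      have h2 : Bd ρ ρ ((PowerSeries.X : PowerSeries (ℕ → K)) ^ (e i β)) := by
        refine Bd.mono (Bd.X_pow hρ.le (e i β)) ?_
        calc ρ ^ e i β ≤ ρ ^ 1 := pow_le_pow_of_le_one hρ.le hρ1' (he i β hβ)
          _ = ρ := pow_one ρ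
      have h3 : (∏ j, (1 + ξ j) ^ (β j)) ∈ SB K ρ hρ.le :=
        prod_mem fun j _ => pow_mem (add_mem (one_mem _) (Bd.mono (hξ.hB j) hd1.le)) _
      have h4 := Bd.mul hρ.le (Bd.mul hρ.le h1 h2) (mem_SB.mp h3)
      refine Bd.mono h4 ?_
      rw [mul_one]
      exact hc i β hβ
    have b4 := Bd.smul (Bd.sub hρ.le (Bd.sub hρ.le b1 b2) b3) ((d : K)⁻¹)
    refine Bd.mono b4 (le_of_eq ?_)
    rw [norm_inv, pow_two, ← mul_assoc, inv_mul_cancel₀ hδ.ne', one_mul]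

lemma op_contr (hd : 2 ≤ d) (he : ∀ i, ∀ β ∈ T i, 1 ≤ e i β)
    {ξ ξ' : ι → PowerSeries (ℕ → K)} (h0 : ∀ i, PowerSeries.coeff 0 (ξ i) = 0)
    (h0' : ∀ i, PowerSeries.coeff 0 (ξ' i) = 0) {k : ℕ} (hk : 1 ≤ k)
    (h : ∀ i, PowerSeries.X ^ k ∣ ξ i - ξ' i) (i : ι) :
    PowerSeries.X ^ (k + 1) ∣ Op d T c e w ξ i - Op d T c e w ξ' i := by
  unfold Op
  rw [← smul_sub]
  have hsm : ∀ (a : K) (f g : PowerSeries (ℕ → K)), f ∣ g → f ∣ a • g := by
    intro a f g hfg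
    exact hfg.trans (Dvd.intro_left (algebraMap K _ a) (by rw [Algebra.smul_def]))
  apply hsm
  have p1 : PowerSeries.X ^ (k + 1) ∣ Phi d (ξ i) - Phi d (ξ' i) := by
    rw [PowerSeries.X_pow_dvd_iff]
    intro m hm
    unfold Phi
    rw [map_sub, PowerSeries.coeff_mk, PowerSeries.coeff_mk]
    split_ifs with hdm
    · have hlt : m / d < k := by
        have : m / d ≤ m / 2 := Nat.div_le_div_left hd (by norm_num)
        omega
      have h1 := (PowerSeries.X_pow_dvd_iff.mp (h i)) (m / d) hlt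
      rw [map_sub, sub_eq_zero] at h1
      rw [h1]
      simp
    · simp
  have p2 : PowerSeries.X ^ (k + 1) ∣ ((1 + ξ i) ^ d - 1 - (d : PowerSeries (ℕ → K)) * ξ i)
      - ((1 + ξ' i) ^ d - 1 - (d : PowerSeries (ℕ → K)) * ξ' i) := by
    have e1 : ((1 + ξ i) ^ d - 1 - (d : PowerSeries (ℕ → K)) * ξ i)
        - ((1 + ξ' i) ^ d - 1 - (d : PowerSeries (ℕ → K)) * ξ' i)
        = (ξ i - ξ' i) * ((∑ j ∈ Finset.range d, (1 + ξ i) ^ j * (1 + ξ' i) ^ (d - 1 - j))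
            - (d : PowerSeries (ℕ → K))) := by
      have g := (Commute.all (1 + ξ i) (1 + ξ' i)).geom_sum₂_mul d
      linear_combination -g
    rw [e1, pow_succ]
    refine mul_dvd_mul (h i) ?_
    rw [PowerSeries.X_dvd_iff]
    have c0 : PowerSeries.constantCoeff (ξ i) = 0 := by
      rw [← PowerSeries.coeff_zero_eq_constantCoeff_apply]; exact h0 i
    have c0' : PowerSeries.constantCoeff (ξ' i) = 0 := by
      rw [← PowerSeries.coeff_zero_eq_constantCoeff_apply]; exact h0' i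
    simp [c0, c0']
  have p3 : PowerSeries.X ^ (k + 1) ∣ (∑ β ∈ T i, PowerSeries.C (c i β • w i β) *
        PowerSeries.X ^ (e i β) * ∏ j, (1 + ξ j) ^ (β j))
      - (∑ β ∈ T i, PowerSeries.C (c i β • w i β) *
        PowerSeries.X ^ (e i β) * ∏ j, (1 + ξ' j) ^ (β j)) := by
    rw [← Finset.sum_sub_distrib]
    refine Finset.dvd_sum fun β hβ => ?_
    rw [← mul_sub, mul_assoc]
    refine Dvd.dvd.mul_left ?_ _
    rw [pow_succ, mul_comm (PowerSeries.X ^ k)]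
    refine mul_dvd_mul ?_ ?_
    · exact dvd_pow_self _ (by have := he i β hβ; omega)
    · rw [← Ideal.mem_span_singleton, ← Ideal.Quotient.eq, map_prod, map_prod]
      refine Finset.prod_congr rfl fun j _ => ?_
      rw [map_pow, map_pow]
      congr 1
      rw [Ideal.Quotient.eq, Ideal.mem_span_singleton]
      simpa using h j
  have e : (Phi d (ξ i) - ((1 + ξ i) ^ d - 1 - (d : PowerSeries (ℕ → K)) * ξ i)
      - (∑ β ∈ T i, PowerSeries.C (c i β • w i β) * PowerSeries.X ^ (e i β) *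
        ∏ j, (1 + ξ j) ^ (β j)))
      - (Phi d (ξ' i) - ((1 + ξ' i) ^ d - 1 - (d : PowerSeries (ℕ → K)) * ξ' i)
      - (∑ β ∈ T i, PowerSeries.C (c i β • w i β) * PowerSeries.X ^ (e i β) *
        ∏ j, (1 + ξ' j) ^ (β j)))
      = (Phi d (ξ i) - Phi d (ξ' i)) - (((1 + ξ i) ^ d - 1 - (d : PowerSeries (ℕ → K)) * ξ i)
      - ((1 + ξ' i) ^ d - 1 - (d : PowerSeries (ℕ → K)) * ξ' i))
      - ((∑ β ∈ T i, PowerSeries.C (c i β • w i β) *
        PowerSeries.X ^ (e i β) * ∏ j, (1 + ξ j) ^ (β j))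
      - (∑ β ∈ T i, PowerSeries.C (c i β • w i β) *
        PowerSeries.X ^ (e i β) * ∏ j, (1 + ξ' j) ^ (β j))) := by
    ring
  rw [e]
  exact dvd_sub (dvd_sub p1 p2) p3

end op

theorem sol_main : S_Sol := by
  intro K _ _ _ ι _ d hd hd1 A hA T c e w he hw
  have hd0 : (d : K) ≠ 0 := by
    have : d ≠ 0 := by omega
    exact_mod_cast this
  have hδ : 0 < ‖(d : K)‖ := norm_pos_iff.mpr hd0
  set δ : ℝ := ‖(d : K)‖ with hδdef
  set M : ℝ := 1 + ∑ i, ∑ β ∈ T i, ‖c i β‖ with hM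
  have hM1 : 1 ≤ M := by
    have : 0 ≤ ∑ i, ∑ β ∈ T i, ‖c i β‖ :=
      Finset.sum_nonneg fun i _ => Finset.sum_nonneg fun β _ => norm_nonneg _
    linarith
  have hM0 : 0 < M := by linarith
  set ρ : ℝ := δ ^ 2 / M with hρdef
  have hρ : 0 < ρ := by positivity
  have hρδ : ρ ≤ δ := by
    rw [hρdef, div_le_iff₀ hM0]
    nlinarith
  have hρ1 : ρ ≤ 1 := hρδ.trans hd1.le
  have hc : ∀ i, ∀ β ∈ T i, ‖c i β‖ * ρ ≤ δ ^ 2 := by
    intro i β hβ
    have h1 : ‖c i β‖ ≤ M := by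
      have h2 : ‖c i β‖ ≤ ∑ β ∈ T i, ‖c i β‖ :=
        Finset.single_le_sum (f := fun β => ‖c i β‖) (fun _ _ => norm_nonneg _) hβ
      have h3 : ∑ β ∈ T i, ‖c i β‖ ≤ ∑ i, ∑ β ∈ T i, ‖c i β‖ :=
        Finset.single_le_sum (f := fun i => ∑ β ∈ T i, ‖c i β‖)
          (fun _ _ => Finset.sum_nonneg fun β _ => norm_nonneg _) (Finset.mem_univ i)
      linarith
    calc ‖c i β‖ * ρ ≤ M * ρ := mul_le_mul_of_nonneg_right h1 hρ.le
      _ = δ ^ 2 := by rw [hρdef]; field_simp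
  set F : ℕ → ι → PowerSeries (ℕ → K) := fun m => (Op d T c e w)^[m] (fun _ => 0) with hF
  have hFs : ∀ m, F (m + 1) = Op d T c e w (F m) := fun m => by
    rw [hF]
    exact Function.iterate_succ_apply' _ _ _
  have hG : ∀ m, Good A ρ δ (F m) := by
    intro m
    induction m with
    | zero =>
      exact ⟨fun i => by simp [hF], fun i => by simp [hF],
        fun i => by simpa [hF] using Bd.zero hδ.le⟩
    | succ m ih =>
      rw [hFs]
      exact op_good hd hd1 hA he hw hρ hρδ hc ih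
  have hstep : ∀ m i, PowerSeries.X ^ (m + 1) ∣ F (m + 1) i - F m i := by
    intro m
    induction m with
    | zero =>
      intro i
      rw [zero_add, pow_one, PowerSeries.X_dvd_iff, map_sub,
        ← PowerSeries.coeff_zero_eq_constantCoeff_apply,
        ← PowerSeries.coeff_zero_eq_constantCoeff_apply, (hG _).h0, (hG _).h0, sub_zero]
    | succ m ih =>
      intro i
      have h1 : F (m + 1 + 1) i - F (m + 1) i
          = Op d T c e w (F (m + 1)) i - Op d T c e w (F m) i := by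
        rw [hFs (m + 1), ← hFs m]
      rw [h1]
      exact op_contr hd he (hG _).h0 (hG _).h0 (by omega) ih i
  have hstab : ∀ k m i, PowerSeries.coeff k (F (k + m) i) = PowerSeries.coeff k (F k i) := by
    intro k m i
    induction m with
    | zero => rfl
    | succ m ih =>
      rw [← ih]
      have h1 := (PowerSeries.X_pow_dvd_iff.mp (hstep (k + m) i)) k (by omega)
      rw [map_sub, sub_eq_zero] at h1
      exact h1
  set ξ : ι → PowerSeries (ℕ → K) := fun i => PowerSeries.mk fun k => PowerSeries.coeff k (F k i)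
    with hξ
  have hξc : ∀ i k, PowerSeries.coeff k (ξ i) = PowerSeries.coeff k (F k i) := by
    intro i k
    rw [hξ]
    simp only [PowerSeries.coeff_mk]
  have hξG : Good A ρ δ ξ := by
    refine ⟨fun i => ?_, fun i k => ?_, fun i k n => ?_⟩
    · rw [hξc]; exact (hG 0).h0 i
    · rw [hξc]; exact (hG k).hA i k
    · rw [hξc]; exact (hG k).hB i k n
  have hξF : ∀ m i, PowerSeries.X ^ (m + 1) ∣ ξ i - F m i := by
    intro m i
    rw [PowerSeries.X_pow_dvd_iff]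
    intro k hk
    obtain ⟨j, rfl⟩ := Nat.exists_eq_add_of_le (Nat.lt_succ_iff.mp hk)
    rw [map_sub, hξc, hstab, sub_self]
  have hfix : ∀ i, Op d T c e w ξ i = ξ i := by
    intro i
    ext1 k
    have h1 := op_contr (c := c) (w := w) hd he hξG.h0 (hG k).h0 (by omega : 1 ≤ k + 1)
      (hξF k) i
    rw [← hFs] at h1
    have h2 := hξF (k + 1) i
    have h3 := dvd_sub h1 h2
    have h4 := (PowerSeries.X_pow_dvd_iff.mp h3) k (by omega)
    have h5 : Op d T c e w ξ i - F (k + 1) i - (ξ i - F (k + 1) i) = Op d T c e w ξ i - ξ i := by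
      ring
    rw [h5, map_sub, sub_eq_zero] at h4
    exact h4
  refine ⟨ρ, ξ, hρ, hρ1, hξG.h0, fun i => hξG.hA i, fun i => Bd.mono (hξG.hB i) hd1.le, fun i => ?_⟩
  have h1 := hfix i
  unfold Op at h1
  have h2 := congrArg (fun f => (d : K) • f) h1
  rw [smul_smul, mul_inv_cancel₀ hd0, one_smul] at h2
  have h3 : ((d : K) • ξ i) = (d : PowerSeries (ℕ → K)) * ξ i := by
    rw [Algebra.smul_def, map_natCast]
  rw [h3] at h2
  linear_combination -h2

end Pool.Agent.W411.DM
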